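import Pool.Agent.Y994.KW.Stm2

/-!
# The modulus of continuity by chaining (job KW2-MODU)
-/

set_option autoImplicit false

noncomputable section

namespace Pool.Agent.Y495.KW

open Y994.KW Filter Topology

section basic

variable {α : Type} [Fintype α]

theorem Ea_mono {M : ℕ} {f g : (Fin M → α) → ℝ} (h : ∀ c, f c ≤ g c) : Ea M f ≤ Ea M g := by
  unfold Ea
  gcongr with c
  exact h c

theorem Ea_add {M : ℕ} (f g : (Fin M → α) → ℝ) :
    Ea M (fun c => f c + g c) = Ea M f + Ea M g := by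
  unfold Ea
  rw [Finset.sum_add_distrib, add_div]

theorem Ea_mul {M : ℕ} (a : ℝ) (f : (Fin M → α) → ℝ) :
    Ea M (fun c => a * f c) = a * Ea M f := by
  unfold Ea
  rw [← Finset.mul_sum, mul_div_assoc]

omit [Fintype α] in
theorem lft_append {M M' : ℕ} (p : (Fin M → α) × (Fin M' → α)) :
    lft M M' (Fin.appendEquiv M M' p) = p.1 := by
  funext i
  simp [lft]

omit [Fintype α] in
theorem rgt_append {M M' : ℕ} (p : (Fin M → α) × (Fin M' → α)) :
    rgt M M' (Fin.appendEquiv M M' p) = p.2 := by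
  funext i
  simp [rgt]

variable [Nonempty α]

theorem card_pow_pos (M : ℕ) : (0 : ℝ) < (Fintype.card α : ℝ) ^ M := by
  have : 0 < Fintype.card α := Fintype.card_pos
  positivity

theorem Ea_lft {M R : ℕ} (f : (Fin M → α) → ℝ) :
    Ea (M + R) (fun c => f (lft M R c)) = Ea M f := by
  unfold Ea
  rw [← (Fin.appendEquiv M R).sum_comp]
  simp only [lft_append]
  rw [Fintype.sum_prod_type]
  simp only [Finset.sum_const, Finset.card_univ, Fintype.card_fun, Fintype.card_fin, nsmul_eq_mul]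
  rw [← Finset.mul_sum, pow_add]
  push_cast
  have h := card_pow_pos (α := α) R
  have h' := card_pow_pos (α := α) M
  field_simp

theorem Ea_rgt {M R : ℕ} (f : (Fin R → α) → ℝ) :
    Ea (M + R) (fun c => f (rgt M R c)) = Ea R f := by
  unfold Ea
  rw [← (Fin.appendEquiv M R).sum_comp]
  simp only [rgt_append]
  rw [Fintype.sum_prod_type]
  simp only [Finset.sum_const, Finset.card_univ, Fintype.card_fun, Fintype.card_fin, nsmul_eq_mul]
  rw [pow_add]
  push_cast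
  have h := card_pow_pos (α := α) R
  have h' := card_pow_pos (α := α) M
  field_simp

omit [Fintype α] in
theorem rst_eq_lft {M R : ℕ} (c : Fin (M + R) → α) : rst M c = lft M R c := by
  funext i
  have h : (i : ℕ) < M + R := by omega
  simp only [rst, h, dite_true, lft]
  rfl

omit [Fintype α] in
theorem rst_self {M : ℕ} (c : Fin M → α) : rst M c = c := by
  funext i
  have h : (i : ℕ) < M := i.2
  simp only [rst, h, dite_true]

omit [Fintype α] in
theorem rst_rst {M' m M : ℕ} (c : Fin M' → α) (h : m ≤ M) : rst m (rst M c) = rst m c := by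
  funext i
  have h1 : (i : ℕ) < M := by omega
  simp only [rst, h1, dite_true]

omit [Fintype α] in
theorem Yr_rst (Y : ∀ M : ℕ, (Fin M → α) → ℝ) {M' m M : ℕ} (c : Fin M' → α) (h : m ≤ M) :
    Yr Y (rst M c) m = Yr Y c m := by
  unfold Yr
  rw [rst_rst c h]

theorem Ea_rst {M N : ℕ} (h : M ≤ N) (f : (Fin M → α) → ℝ) :
    Ea N (fun c => f (rst M c)) = Ea M f := by
  obtain ⟨R, rfl⟩ := Nat.exists_eq_add_of_le h
  simp only [rst_eq_lft]
  exact Ea_lft f

open Classical in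
/-- probability -/
def Pr (M : ℕ) (A : (Fin M → α) → Prop) : ℝ := Ea M (fun c => if A c then (1 : ℝ) else 0)

omit [Nonempty α] in
theorem Pr_mono {M : ℕ} {A A' : (Fin M → α) → Prop} (h : ∀ c, A c → A' c) : Pr M A ≤ Pr M A' := by
  apply Ea_mono
  intro c
  by_cases h1 : A c
  · simp [h1, h c h1]
  · simp only [h1, if_false]
    split_ifs <;> norm_num

omit [Nonempty α] in
theorem Pr_or {M : ℕ} (A A' : (Fin M → α) → Prop) :
    Pr M (fun c => A c ∨ A' c) ≤ Pr M A + Pr M A' := by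
  unfold Pr
  rw [← Ea_add]
  apply Ea_mono
  intro c
  by_cases h1 : A c <;> by_cases h2 : A' c <;> simp [h1, h2]

omit [Nonempty α] in
theorem Pr_exists {M : ℕ} (n : ℕ) (A : ℕ → (Fin M → α) → Prop) (b : ℝ)
    (h : ∀ k < n, Pr M (A k) ≤ b) : Pr M (fun c => ∃ k < n, A k c) ≤ n * b := by
  induction n with
  | zero =>
    have : Pr M (fun c : Fin M → α => ∃ k < 0, A k c) = 0 := by simp [Pr, Ea]
    rw [this]; simp
  | succ n ih =>
    have h1 := ih fun k hk => h k (by omega)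
    have h2 : Pr M (fun c => ∃ k < n + 1, A k c) ≤
        Pr M (fun c => (∃ k < n, A k c) ∨ A n c) := by
      apply Pr_mono
      rintro c ⟨k, hk, hc⟩
      rcases Nat.lt_or_ge k n with h3 | h3
      · exact Or.inl ⟨k, h3, hc⟩
      · have : k = n := by omega
        subst this
        exact Or.inr hc
    have h3 := Pr_or (fun c => ∃ k < n, A k c) (A n)
    have h4 := h n (by omega)
    push_cast
    linarith

theorem Pr_rst {M N : ℕ} (h : M ≤ N) (A : (Fin M → α) → Prop) :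
    Pr N (fun c => A (rst M c)) = Pr M A := by
  classical
  exact Ea_rst h (fun c => if A c then (1 : ℝ) else 0)

omit [Nonempty α] in
/-- Markov's inequality for the fourth moment -/
theorem markov {M : ℕ} (X : (Fin M → α) → ℝ) (A : (Fin M → α) → Prop) {t b : ℝ} (ht : 0 < t)
    (hA : ∀ c, A c → t ≤ |X c|) (hb : Ea M (fun c => X c ^ 4) ≤ b) : Pr M A ≤ b / t ^ 4 := by
  have h1 : Pr M A ≤ Ea M (fun c => (1 / t ^ 4) * X c ^ 4) := by
    apply Ea_mono
    intro c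
    split_ifs with h
    · have h2 : t ^ 4 ≤ |X c| ^ 4 := pow_le_pow_left₀ ht.le (hA c h) 4
      have h3 : |X c| ^ 4 = X c ^ 4 := by rw [← abs_pow]; exact abs_of_nonneg (by positivity)
      rw [h3] at h2
      rw [one_div, inv_mul_eq_div, le_div_iff₀ (by positivity)]
      linarith
    · positivity
  rw [Ea_mul] at h1
  calc Pr M A ≤ 1 / t ^ 4 * Ea M (fun c => X c ^ 4) := h1
    _ ≤ 1 / t ^ 4 * b := by gcongr
    _ = b / t ^ 4 := by ring

end basic

section moments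

variable {α : Type} [Fintype α] [Nonempty α] {Y : ∀ M : ℕ, (Fin M → α) → ℝ} {B D : ℝ} {m0 : ℕ}

/-- fourth moments of the increments -/
theorem incr {K δ0 : ℝ} (hK : 0 < K) (h0 : 0 < δ0) (h : Qa Y B D m0) (hD : 0 ≤ D)
    (hlow : δ0 * B ^ 2 ≤ D * m0)
    (hq : ∀ M : ℕ, m0 ≤ M → Ea M (fun c => Y M c ^ 4) ≤
      K * (B ^ 2 + D * M) ^ 2 + K * (B ^ 2 * (M / m0)) ^ 2)
    (a l N : ℕ) (hl : m0 ≤ l) (hN : a + l ≤ N) :
    Ea N (fun c => (Yr Y c (a + l) - Yr Y c a) ^ 4) ≤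
      (8 * (1 / δ0 ^ 2 + K * (1 / δ0 + 1) ^ 2 + K / δ0 ^ 2)) * (D * l) ^ 2 := by
  have e1 : Ea N (fun c => (Yr Y c (a + l) - Yr Y c a) ^ 4) =
      Ea (a + l) (fun c => (Y (a + l) c - Y a (lft a l c)) ^ 4) := by
    rw [← Ea_rst hN (fun c => (Y (a + l) c - Y a (lft a l c)) ^ 4)]
    have e : ∀ c : Fin N → α, Yr Y c a = Y a (lft a l (rst (a + l) c)) := fun c => by
      unfold Yr
      rw [← rst_eq_lft, rst_rst c (Nat.le_add_right a l)]
    simp only [e]
    rfl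
  rw [e1]
  have hm : (0 : ℝ) < m0 := by exact_mod_cast h.mpos
  have hl' : (m0 : ℝ) ≤ l := by exact_mod_cast hl
  have hB2 : B ^ 2 ≤ (1 / δ0) * (D * l) := by
    rw [one_div, inv_mul_eq_div, le_div_iff₀ h0]
    calc B ^ 2 * δ0 = δ0 * B ^ 2 := by ring
      _ ≤ D * m0 := hlow
      _ ≤ D * l := by gcongr
  have hB2' : B ^ 2 * (l / m0) ≤ (1 / δ0) * (D * l) := by
    rw [one_div, inv_mul_eq_div, le_div_iff₀ h0]
    calc B ^ 2 * (l / m0) * δ0 = (δ0 * B ^ 2) * (l / m0) := by ring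
      _ ≤ (D * m0) * (l / m0) := by gcongr
      _ = D * l := by field_simp
  have hDl : 0 ≤ D * l := by positivity
  have hB0 : 0 ≤ B ^ 2 := by positivity
  have h4 : B ^ 4 ≤ ((1 / δ0) * (D * l)) ^ 2 := by
    have : B ^ 4 = (B ^ 2) ^ 2 := by ring
    rw [this]
    exact pow_le_pow_left₀ hB0 hB2 2
  have h5 : Ea l (fun c => Y l c ^ 4) ≤ K * ((1 / δ0 + 1) * (D * l)) ^ 2 +
      K * ((1 / δ0) * (D * l)) ^ 2 := by
    refine (hq l hl).trans ?_
    have h6 : (B ^ 2 + D * l) ^ 2 ≤ ((1 / δ0 + 1) * (D * l)) ^ 2 := by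
      apply pow_le_pow_left₀ (by positivity)
      linarith
    have h7 : (B ^ 2 * (l / m0)) ^ 2 ≤ ((1 / δ0) * (D * l)) ^ 2 := by
      apply pow_le_pow_left₀ (by positivity) hB2'
    gcongr
  have h8 : Ea (a + l) (fun c => (Y (a + l) c - Y a (lft a l c)) ^ 4) ≤
      Ea (a + l) (fun c => 8 * (Y (a + l) c - Y a (lft a l c) - Y l (rgt a l c)) ^ 4 +
        8 * Y l (rgt a l c) ^ 4) := by
    apply Ea_mono
    intro c
    set x := Y (a + l) c - Y a (lft a l c) - Y l (rgt a l c) with hx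
    set y := Y l (rgt a l c) with hy
    have : Y (a + l) c - Y a (lft a l c) = x + y := by rw [hx, hy]; ring
    rw [this]
    nlinarith [sq_nonneg (x - y), sq_nonneg (x + y), sq_nonneg (x ^ 2 - y ^ 2),
      sq_nonneg ((x - y) ^ 2), sq_nonneg (x ^ 2 + y ^ 2), sq_nonneg ((x - y) * (x + y))]
  rw [Ea_add, Ea_mul, Ea_mul, Ea_rgt (fun c => Y l c ^ 4)] at h8
  have h9 := h.err a l
  calc _ ≤ _ := h8
    _ ≤ 8 * ((1 / δ0) * (D * l)) ^ 2 + 8 * (K * ((1 / δ0 + 1) * (D * l)) ^ 2 +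
      K * ((1 / δ0) * (D * l)) ^ 2) := by linarith
    _ = _ := by field_simp; ring

/-- dyadic maximal inequality -/
theorem dyad {C1 : ℝ} (hC1 : 0 < C1) (hm : 1 ≤ m0)
    (hinc : ∀ a l N : ℕ, m0 ≤ l → a + l ≤ N →
      Ea N (fun c => (Yr Y c (a + l) - Yr Y c a) ^ 4) ≤ C1 * (D * l) ^ 2) (p : ℕ) :
    ∀ (a N : ℕ) (t : ℝ), 0 < t → a + 2 ^ p * m0 ≤ N →
      Pr N (fun c => ∃ i ≤ 2 ^ p, t ≤ |Yr Y c (a + i * m0) - Yr Y c a|) ≤
        (11000 * C1) * (D * ((2 ^ p * m0 : ℕ) : ℝ)) ^ 2 / t ^ 4 := by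
  induction p with
  | zero =>
    intro a N t ht hN
    have h1 := hinc a (2 ^ 0 * m0) N (by simp) hN
    have h2 : Pr N (fun c => ∃ i ≤ 2 ^ 0, t ≤ |Yr Y c (a + i * m0) - Yr Y c a|) ≤
        C1 * (D * ((2 ^ 0 * m0 : ℕ) : ℝ)) ^ 2 / t ^ 4 := by
      refine markov (fun c => Yr Y c (a + 2 ^ 0 * m0) - Yr Y c a) _ ht ?_ h1
      rintro c ⟨i, hi, hc⟩
      rcases Nat.eq_zero_or_pos i with rfl | hi0
      · rw [zero_mul, add_zero, sub_self, abs_zero] at hc
        linarith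
      · have : i = 1 := by simp at hi; omega
        subst this
        simpa using hc
    refine h2.trans ?_
    gcongr
    linarith
  | succ p ih =>
    intro a N t ht hN
    set L : ℕ := 2 ^ p * m0 with hL
    have hL2 : 2 ^ (p + 1) * m0 = L + L := by rw [hL, pow_succ]; ring
    have hmL : m0 ≤ L := by
      rw [hL]
      exact Nat.le_mul_of_pos_left _ (by positivity)
    rw [hL2] at hN ⊢
    have i1 := ih a N (9 / 10 * t) (by positivity) (by omega)
    have i2 := ih (a + L) N (9 / 10 * t) (by positivity) (by omega)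
    have i3 : Pr N (fun c => t / 10 ≤ |Yr Y c (a + L) - Yr Y c a|) ≤
        C1 * (D * (L : ℝ)) ^ 2 / (t / 10) ^ 4 :=
      markov (fun c => Yr Y c (a + L) - Yr Y c a) _ (by positivity) (fun c hc => hc)
        (hinc a L N hmL (by omega))
    have h1 : Pr N (fun c => ∃ i ≤ 2 ^ (p + 1), t ≤ |Yr Y c (a + i * m0) - Yr Y c a|) ≤
        Pr N (fun c => (∃ i ≤ 2 ^ p, 9 / 10 * t ≤ |Yr Y c (a + i * m0) - Yr Y c a|) ∨
          ((∃ i ≤ 2 ^ p, 9 / 10 * t ≤ |Yr Y c (a + L + i * m0) - Yr Y c (a + L)|) ∨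
          t / 10 ≤ |Yr Y c (a + L) - Yr Y c a|)) := by
      apply Pr_mono
      rintro c ⟨i, hi, hc⟩
      rcases Nat.lt_or_ge (2 ^ p) i with h3 | h3
      · by_cases h4 : t / 10 ≤ |Yr Y c (a + L) - Yr Y c a|
        · exact Or.inr (Or.inr h4)
        · push Not at h4
          refine Or.inr (Or.inl ⟨i - 2 ^ p, by rw [pow_succ] at hi; omega, ?_⟩)
          have e : a + L + (i - 2 ^ p) * m0 = a + i * m0 := by
            have e2 : i * m0 = 2 ^ p * m0 + (i - 2 ^ p) * m0 := by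
              rw [← add_mul]; congr 1; omega
            rw [e2, hL]; ring
          rw [e]
          have h5 : |Yr Y c (a + i * m0) - Yr Y c a| ≤
              |Yr Y c (a + i * m0) - Yr Y c (a + L)| + |Yr Y c (a + L) - Yr Y c a| :=
            abs_sub_le _ _ _
          linarith
      · exact Or.inl ⟨i, h3, by linarith⟩
    have h2 := Pr_or (fun c : Fin N → α =>
        ∃ i ≤ 2 ^ p, 9 / 10 * t ≤ |Yr Y c (a + i * m0) - Yr Y c a|)
      (fun c => (∃ i ≤ 2 ^ p, 9 / 10 * t ≤ |Yr Y c (a + L + i * m0) - Yr Y c (a + L)|) ∨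
          t / 10 ≤ |Yr Y c (a + L) - Yr Y c a|)
    have h3 := Pr_or (fun c : Fin N → α =>
        ∃ i ≤ 2 ^ p, 9 / 10 * t ≤ |Yr Y c (a + L + i * m0) - Yr Y c (a + L)|)
      (fun c => t / 10 ≤ |Yr Y c (a + L) - Yr Y c a|)
    have h4 : Pr N (fun c => ∃ i ≤ 2 ^ (p + 1), t ≤ |Yr Y c (a + i * m0) - Yr Y c a|) ≤
        (11000 * C1) * (D * (L : ℝ)) ^ 2 / (9 / 10 * t) ^ 4 +
        ((11000 * C1) * (D * (L : ℝ)) ^ 2 / (9 / 10 * t) ^ 4 +
          C1 * (D * (L : ℝ)) ^ 2 / (t / 10) ^ 4) := by linarith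
    refine h4.trans ?_
    push_cast
    have hx : 0 ≤ C1 * (D * (L : ℝ)) ^ 2 / t ^ 4 := by positivity
    have e1 : (11000 * C1) * (D * (L : ℝ)) ^ 2 / (9 / 10 * t) ^ 4 +
        ((11000 * C1) * (D * (L : ℝ)) ^ 2 / (9 / 10 * t) ^ 4 +
          C1 * (D * (L : ℝ)) ^ 2 / (t / 10) ^ 4) =
        (22000 * (10000 / 6561) + 10000) * (C1 * (D * (L : ℝ)) ^ 2 / t ^ 4) := by
      field_simp
      ring
    have e2 : 11000 * C1 * (D * ((L : ℝ) + L)) ^ 2 / t ^ 4 =
        44000 * (C1 * (D * (L : ℝ)) ^ 2 / t ^ 4) := by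
      field_simp
      ring
    rw [e1, e2]
    gcongr
    norm_num

/-- windows -/
theorem window (hosc : Osc Y B m0) (m N : ℕ) (t : ℝ) (ht : 0 < t) (hN : m + m0 ≤ N) :
    Pr N (fun c => ∃ l ≤ m0, t ≤ |Yr Y c (m + l) - Yr Y c m|) ≤ B ^ 4 / t ^ 4 := by
  obtain ⟨g, hg1, hg2⟩ := hosc m
  have h1 : Pr (m + m0) (fun c => ∃ l ≤ m0, t ≤ |Yr Y c (m + l) - Yr Y c m|) ≤ B ^ 4 / t ^ 4 := by
    refine markov g _ ht ?_ hg2
    rintro c ⟨l, hl, hc⟩
    exact (hc.trans (hg1 c l hl)).trans (le_abs_self _)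
  rw [← Pr_rst hN] at h1
  refine (Pr_mono ?_).trans h1
  rintro c ⟨l, hl, hc⟩
  refine ⟨l, hl, ?_⟩
  rw [Yr_rst Y c (by omega), Yr_rst Y c (by omega)]
  exact hc

end moments

/-- the deterministic step -/
theorem det {y : ℕ → ℝ} {m0 p J M : ℕ} {t : ℝ} (hm : 1 ≤ m0)
    (hJ : J = M / (2 ^ p * m0) + 2)
    (h1 : ∀ k < J, ∀ i ≤ 2 ^ p, |y (k * (2 ^ p * m0) + i * m0) - y (k * (2 ^ p * m0))| < t)
    (h2 : ∀ i < J * 2 ^ p, ∀ l ≤ m0, |y (i * m0 + l) - y (i * m0)| < t)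
    {m m' : ℕ} (hmM : m ≤ M) (hm'M : m' ≤ M) (hmm : m ≤ m') (hlt : m' < m + 2 ^ p * m0) :
    |y m - y m'| < 5 * t := by
  set L := 2 ^ p * m0 with hL
  have hLpos : 0 < L := by positivity
  have key : ∀ r, r ≤ M → |y r - y (r / L * L)| < 2 * t := by
    intro r hr
    set k := r / L with hk
    set s := r % L with hs
    have hrs : r = k * L + s := by rw [hk, hs, mul_comm]; exact (Nat.div_add_mod r L).symm
    have hsL : s < L := Nat.mod_lt _ hLpos
    set i := s / m0 with hi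
    set l := s % m0 with hl
    have hsl : s = i * m0 + l := by rw [hi, hl, mul_comm]; exact (Nat.div_add_mod s m0).symm
    have hlm : l < m0 := Nat.mod_lt _ (by omega)
    have hi2 : i < 2 ^ p := by
      rw [hi]
      apply Nat.div_lt_of_lt_mul
      rw [mul_comm]; exact hsL
    have hkJ : k < J := by
      have : k ≤ M / L := Nat.div_le_div_right hr
      omega
    have e1 : (k * 2 ^ p + i) * m0 = k * L + i * m0 := by rw [hL]; ring
    have hidx : k * 2 ^ p + i < J * 2 ^ p := by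
      calc k * 2 ^ p + i < k * 2 ^ p + 2 ^ p := by omega
        _ = (k + 1) * 2 ^ p := by ring
        _ ≤ J * 2 ^ p := Nat.mul_le_mul_right _ hkJ
    have a1 := h1 k hkJ i hi2.le
    have a2 := h2 (k * 2 ^ p + i) hidx l hlm.le
    rw [e1] at a2
    have e2 : r = k * L + i * m0 + l := by rw [hrs, hsl]; ring
    rw [e2]
    calc |y (k * L + i * m0 + l) - y (k * L)| ≤
        |y (k * L + i * m0 + l) - y (k * L + i * m0)| + |y (k * L + i * m0) - y (k * L)| :=
          abs_sub_le _ _ _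
      _ < t + t := add_lt_add a2 a1
      _ = 2 * t := by ring
  have k1 := key m hmM
  have k2 := key m' hm'M
  have hk1 : m / L ≤ m' / L := Nat.div_le_div_right hmm
  have hk2 : m' / L < m / L + 2 := by
    rw [Nat.div_lt_iff_lt_mul hLpos]
    have h3 : m < (m / L + 1) * L := by
      have := Nat.lt_div_mul_add (a := m) hLpos
      rw [add_mul, one_mul]; exact this
    calc m' < m + L := hlt
      _ ≤ (m / L + 1) * L + L := by omega
      _ = (m / L + 2) * L := by ring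
  have ht : 0 < t := by
    have := (abs_nonneg _).trans_lt k1
    linarith
  rcases Nat.lt_or_ge (m / L) (m' / L) with h3 | h3
  · have h4 : m' / L = m / L + 1 := by omega
    have hkJ : m / L < J := by
      have : m / L ≤ M / L := Nat.div_le_div_right hmM
      omega
    have k3 := h1 (m / L) hkJ (2 ^ p) le_rfl
    have e : m / L * L + 2 ^ p * m0 = m' / L * L := by rw [h4, ← hL]; ring
    rw [e] at k3
    have b1 : |y m - y m'| ≤ |y m - y (m / L * L)| + |y (m / L * L) - y m'| := abs_sub_le _ _ _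
    have b2 : |y (m / L * L) - y m'| ≤ |y (m / L * L) - y (m' / L * L)| + |y (m' / L * L) - y m'| :=
      abs_sub_le _ _ _
    rw [abs_sub_comm (y (m / L * L)) (y (m' / L * L)), abs_sub_comm (y (m' / L * L)) (y m')] at b2
    linarith
  · have h4 : m' / L = m / L := by omega
    rw [h4] at k2
    have b1 : |y m - y m'| ≤ |y m - y (m / L * L)| + |y (m / L * L) - y m'| := abs_sub_le _ _ _
    rw [abs_sub_comm (y (m / L * L)) (y m')] at b1
    linarith

theorem t_MODU : S_QAM → S_MODU := by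
  classical
  rintro ⟨K, hK, hQ⟩ δ0 ε η h0 hε hη
  set C1 : ℝ := 8 * (1 / δ0 ^ 2 + K * (1 / δ0 + 1) ^ 2 + K / δ0 ^ 2) with hC1
  have hC1p : 0 < C1 := by positivity
  set C2 : ℝ := 11000 * C1 with hC2
  have hC2p : 0 < C2 := by positivity
  set δ1 : ℝ := min 1 (η * ε ^ 4 / (3750 * C2)) with hδ1
  have hδ1p : 0 < δ1 := lt_min one_pos (by positivity)
  set A : ℝ := max (1 / δ1) (3750 / (δ0 ^ 2 * ε ^ 4 * η)) with hA
  have hAp : 0 < A := lt_of_lt_of_le (by positivity) (le_max_left _ _)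
  refine ⟨δ1 / 2, A, by positivity, hAp, ?_⟩
  intro α _ _ Y B D m0 h hosc hlow M hM
  obtain ⟨hD0, -, hq⟩ := hQ α Y B D m0 h
  have hm0 : (0 : ℝ) < m0 := by exact_mod_cast h.mpos
  have hB2 : 0 < B ^ 2 := by have := h.Bpos; positivity
  have hD : 0 < D := by
    by_contra hc
    have : D = 0 := le_antisymm (not_lt.1 hc) hD0
    rw [this, zero_mul] at hlow
    have : 0 < δ0 * B ^ 2 := by positivity
    linarith
  have hMp : (0 : ℝ) < M := lt_of_lt_of_le (by positivity) hM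
  have hm0M : (m0 : ℝ) ≤ δ1 * M := by
    have h1 : 1 / δ1 * m0 ≤ M := le_trans (by gcongr; exact le_max_left _ _) hM
    rw [one_div, inv_mul_eq_div, div_le_iff₀ hδ1p] at h1
    linarith
  -- choice of `p`
  obtain ⟨p, hp1, hp2⟩ : ∃ p : ℕ, (2 : ℝ) ^ p * m0 ≤ δ1 * M ∧ δ1 * M < 2 * (2 ^ p * m0) := by
    have hex : ∃ q : ℕ, δ1 * M < 2 * ((2 : ℝ) ^ q * m0) := by
      obtain ⟨q, hq⟩ := pow_unbounded_of_one_lt (δ1 * M / m0) (one_lt_two (α := ℝ))
      refine ⟨q, ?_⟩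
      rw [div_lt_iff₀ hm0] at hq
      have : 0 < (2 : ℝ) ^ q * m0 := by positivity
      linarith
    refine ⟨Nat.find hex, ?_, Nat.find_spec hex⟩
    rcases Nat.eq_zero_or_pos (Nat.find hex) with h1 | h1
    · rw [h1, pow_zero, one_mul]; exact hm0M
    · have h2 := Nat.find_min hex (m := Nat.find hex - 1) (by omega)
      push Not at h2
      have e : (2 : ℝ) ^ Nat.find hex = 2 * 2 ^ (Nat.find hex - 1) := by
        rw [← pow_succ']; congr 1; omega
      rw [e]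
      linarith
  set L : ℕ := 2 ^ p * m0 with hL
  have hLr : (L : ℝ) = 2 ^ p * m0 := by rw [hL]; push_cast; rfl
  rw [← hLr] at hp1 hp2
  have hLpos : 0 < L := by
    have := h.mpos
    positivity
  have hLp : (0 : ℝ) < L := by exact_mod_cast hLpos
  set J : ℕ := M / L + 2 with hJ
  set N : ℕ := J * L with hN
  have hMN : M ≤ N := by
    rw [hN, hJ]
    have := Nat.lt_div_mul_add (a := M) hLpos
    rw [add_mul]; omega
  have hLM : (L : ℝ) ≤ M := by
    have : δ1 ≤ 1 := min_le_left _ _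
    nlinarith
  have hJr : (J : ℝ) ≤ 3 * (M / L) := by
    have h1 : ((M / L : ℕ) : ℝ) ≤ M / L := Nat.cast_div_le
    have h2 : 1 ≤ (M : ℝ) / L := by rw [le_div_iff₀ hLp]; linarith
    rw [hJ]; push_cast; linarith
  set t : ℝ := ε * √(D * M) / 5 with ht
  have hDM : 0 < D * M := by positivity
  have htp : 0 < t := by
    have := Real.sqrt_pos.2 hDM
    positivity
  have ht4 : t ^ 4 = ε ^ 4 * (D * M) ^ 2 / 625 := by
    have h1 : √(D * M) ^ 4 = (D * M) ^ 2 := by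
      have : √(D * M) ^ 4 = (√(D * M) ^ 2) ^ 2 := by ring
      rw [this, Real.sq_sqrt hDM.le]
    rw [ht, div_pow, mul_pow, h1]
    norm_num
  have hinc : ∀ a l N : ℕ, m0 ≤ l → a + l ≤ N →
      Ea N (fun c => (Yr Y c (a + l) - Yr Y c a) ^ 4) ≤ C1 * (D * l) ^ 2 :=
    fun a l N hl hN => incr hK h0 h hD0 hlow hq a l N hl hN
  -- the events
  have p1 : ∀ k < J, Pr N (fun c : Fin N → α => ∃ i ≤ 2 ^ p,
      t ≤ |Yr Y c (k * L + i * m0) - Yr Y c (k * L)|) ≤ C2 * (D * (L : ℝ)) ^ 2 / t ^ 4 := by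
    intro k hk
    refine dyad hC1p h.mpos hinc p (k * L) N t htp ?_
    rw [← hL, hN]
    calc k * L + L = (k + 1) * L := by ring
      _ ≤ J * L := Nat.mul_le_mul_right _ hk
  have p2 : ∀ i < J * 2 ^ p, Pr N (fun c : Fin N → α => ∃ l ≤ m0,
      t ≤ |Yr Y c (i * m0 + l) - Yr Y c (i * m0)|) ≤ B ^ 4 / t ^ 4 := by
    intro i hi
    refine window hosc (i * m0) N t htp ?_
    calc i * m0 + m0 = (i + 1) * m0 := by ring
      _ ≤ (J * 2 ^ p) * m0 := Nat.mul_le_mul_right _ hi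
      _ = N := by rw [hN, hL]; ring
  have q1 := Pr_exists J _ _ p1
  have q2 := Pr_exists (J * 2 ^ p) _ _ p2
  have q3 := Pr_or (fun c : Fin N → α => ∃ k < J, ∃ i ≤ 2 ^ p,
      t ≤ |Yr Y c (k * L + i * m0) - Yr Y c (k * L)|)
    (fun c => ∃ i < J * 2 ^ p, ∃ l ≤ m0, t ≤ |Yr Y c (i * m0 + l) - Yr Y c (i * m0)|)
  set Bad : (Fin M → α) → Prop := fun c => ∃ m m' : ℕ, m ≤ M ∧ m' ≤ M ∧
    |(m : ℝ) - m'| ≤ δ1 / 2 * M ∧ ε * √(D * M) ≤ |Yr Y c m - Yr Y c m'| with hBad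
  have hmain : Pr M Bad ≤ Pr N (fun c : Fin N → α => (∃ k < J, ∃ i ≤ 2 ^ p,
      t ≤ |Yr Y c (k * L + i * m0) - Yr Y c (k * L)|) ∨
      (∃ i < J * 2 ^ p, ∃ l ≤ m0, t ≤ |Yr Y c (i * m0 + l) - Yr Y c (i * m0)|)) := by
    rw [← Pr_rst hMN]
    apply Pr_mono
    intro c hc
    by_contra hcon
    push Not at hcon
    obtain ⟨g1, g2⟩ := hcon
    obtain ⟨m, m', hm, hm', hd, he⟩ := hc
    rw [Yr_rst Y c hm, Yr_rst Y c hm'] at he
    have hlt : |(m : ℝ) - m'| < L := by linarith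
    rw [abs_lt] at hlt
    have l1 : m' < m + L := by
      have : (m' : ℝ) < m + L := by linarith [hlt.1]
      exact_mod_cast this
    have l2 : m < m' + L := by
      have : (m : ℝ) < m' + L := by linarith [hlt.2]
      exact_mod_cast this
    have h5 : |Yr Y c m - Yr Y c m'| < 5 * t := by
      rcases Nat.le_total m m' with h6 | h6
      · exact det (y := Yr Y c) h.mpos hJ g1 g2 hm hm' h6 l1
      · rw [abs_sub_comm]
        exact det (y := Yr Y c) h.mpos hJ g1 g2 hm' hm h6 l2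
    have : 5 * t = ε * √(D * M) := by rw [ht]; ring
    linarith
  show Ea M (fun c => if Bad c then (1 : ℝ) else 0) ≤ η
  have e0 : Ea M (fun c => if Bad c then (1 : ℝ) else 0) = Pr M Bad := by
    unfold Pr
    congr 1
  rw [e0]
  have b1 : (J : ℝ) * (C2 * (D * (L : ℝ)) ^ 2 / t ^ 4) ≤ η / 2 := by
    rw [ht4]
    have c1 : (J : ℝ) * (C2 * (D * (L : ℝ)) ^ 2 / (ε ^ 4 * (D * M) ^ 2 / 625)) ≤
        3 * (M / L) * (C2 * (D * (L : ℝ)) ^ 2 / (ε ^ 4 * (D * M) ^ 2 / 625)) := by gcongr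
    have c2 : 3 * ((M : ℝ) / L) * (C2 * (D * (L : ℝ)) ^ 2 / (ε ^ 4 * (D * M) ^ 2 / 625)) =
        1875 * C2 / ε ^ 4 * (L / M) := by
      field_simp
      ring
    have c3 : (L : ℝ) / M ≤ δ1 := by rw [div_le_iff₀ hMp]; exact hp1
    have c4 : δ1 ≤ η * ε ^ 4 / (3750 * C2) := min_le_right _ _
    calc _ ≤ _ := c1
      _ = _ := c2
      _ ≤ 1875 * C2 / ε ^ 4 * (η * ε ^ 4 / (3750 * C2)) :=
        mul_le_mul_of_nonneg_left (c3.trans c4) (by positivity)
      _ = η / 2 := by field_simp; ring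
  have b2 : ((J * 2 ^ p : ℕ) : ℝ) * (B ^ 4 / t ^ 4) ≤ η / 2 := by
    rw [ht4]
    have c0 : ((J * 2 ^ p : ℕ) : ℝ) ≤ 3 * (M / m0) := by
      push_cast
      have : (3 * ((M : ℝ) / m0)) = 3 * (M / L) * 2 ^ p := by
        rw [hLr]; field_simp
      rw [this]
      gcongr
    have c1 : B ^ 4 ≤ (D * m0 / δ0) ^ 2 := by
      have e : B ^ 4 = (B ^ 2) ^ 2 := by ring
      rw [e]
      apply pow_le_pow_left₀ hB2.le
      rw [le_div_iff₀ h0]
      linarith
    have c2 : ((J * 2 ^ p : ℕ) : ℝ) * (B ^ 4 / (ε ^ 4 * (D * M) ^ 2 / 625)) ≤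
        3 * (M / m0) * ((D * m0 / δ0) ^ 2 / (ε ^ 4 * (D * M) ^ 2 / 625)) := by gcongr
    have c3 : 3 * ((M : ℝ) / m0) * ((D * m0 / δ0) ^ 2 / (ε ^ 4 * (D * M) ^ 2 / 625)) =
        1875 / (δ0 ^ 2 * ε ^ 4) * (m0 / M) := by
      field_simp
      ring
    have c4 : (m0 : ℝ) / M ≤ δ0 ^ 2 * ε ^ 4 * η / 3750 := by
      rw [div_le_iff₀ hMp]
      have h1 : 3750 / (δ0 ^ 2 * ε ^ 4 * η) * m0 ≤ M :=
        le_trans (by gcongr; exact le_max_right _ _) hM
      have h2 : (m0 : ℝ) = δ0 ^ 2 * ε ^ 4 * η / 3750 * (3750 / (δ0 ^ 2 * ε ^ 4 * η) * m0) := by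
        field_simp
      rw [h2]
      gcongr
    calc _ ≤ _ := c2
      _ = _ := c3
      _ ≤ 1875 / (δ0 ^ 2 * ε ^ 4) * (δ0 ^ 2 * ε ^ 4 * η / 3750) := by gcongr
      _ = η / 2 := by field_simp; ring
  linarith

end Pool.Agent.Y495.KW
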